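import Mathlib
import Pool.Agent.KS6_20.SZ.Bound

/-!
# The non-monic Schinzel-Zassenhaus problem: no bound `1 + c / (q ^ A n)`

For EVERY integer `q ≥ 4096` and ALL sufficiently large degrees `n` there is an integer polynomial of
degree `n` with leading coefficient `q` which has a root outside the closed unit disc and all of
whose roots have modulus at most `1 + exp (-(log q) ^ 2 / 20) / n`.

The polynomials are `z ^ m (z ^ k h(1/z)) + (h(z) - 2 e)` where `h` is an integer polynomial with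
`h(0) = q` and `2 Re h(z) = 2 e + y ^ r (c y - 1)`, `y = |1 - z| ^ 2`, on the unit circle.
-/

set_option autoImplicit false

open Polynomial

namespace Pool.Agent.Results.MP_daf011_nt.EveryLeadingCoefficient

/-- There is an integer polynomial of degree `n` with leading coefficient `q` which has a complex
root of modulus `> 1` and all of whose complex roots have modulus at most `1 + ε`. -/
def Exceptional (q : ℤ) (n : ℕ) (ε : ℝ) : Prop :=
  ∃ P : ℤ[X], P.natDegree = n ∧ P.leadingCoeff = q ∧ (∃ z : ℂ, aeval z P = 0 ∧ 1 < ‖z‖) ∧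
    ∀ z : ℂ, aeval z P = 0 → ‖z‖ ≤ 1 + ε

lemma Exceptional.mono {q : ℤ} {n : ℕ} {ε ε' : ℝ} (h : Exceptional q n ε) (hε : ε ≤ ε') :
    Exceptional q n ε' := by
  obtain ⟨P, h1, h2, h3, h4⟩ := h
  exact ⟨P, h1, h2, h3, fun z hz => (h4 z hz).trans (by linarith)⟩

open Pool.Agent.KS6_20.SZ in
theorem general {r : ℕ} (hr : 1 ≤ r) {c q : ℤ} (hc : 2 ≤ c) (hq : c * 4 ^ r ≤ q) :
    ∃ n0 : ℕ, ∀ n ≥ n0, Exceptional q n (8 / ((c : ℝ) ^ r * n)) := by
  obtain ⟨u, hu⟩ : ∃ u : ℕ, u = (2 * (r + 1) - 1).choose (r + 1) := ⟨_, rfl⟩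
  obtain ⟨v, hv⟩ : ∃ v : ℕ, v = (2 * r - 1).choose r := ⟨_, rfl⟩
  have hu4 : u ≤ 4 ^ r := by
    have h1 : 2 * (r + 1) - 1 = 2 * r + 1 := by omega
    have h2 : (2 * r + 1).choose r = (2 * r + 1).choose (r + 1) := by
      rw [← Nat.choose_symm_of_eq_add (show 2 * r + 1 = (r + 1) + r by ring)]
    rw [hu, h1, ← h2]
    exact Nat.choose_middle_le_pow r
  have hv1 : 1 ≤ v := by
    rw [hv]
    exact Nat.choose_pos (by omega)
  obtain ⟨e, hedef⟩ : ∃ e : ℤ, e = q - (c * (u : ℤ) - (v : ℤ)) := ⟨_, rfl⟩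
  have he : 1 ≤ e := by
    have h1 : c * (u : ℤ) ≤ c * 4 ^ r := by
      refine mul_le_mul_of_nonneg_left ?_ (by omega)
      exact_mod_cast hu4
    have h2 : (1 : ℤ) ≤ v := by exact_mod_cast hv1
    omega
  have hcoef : (h e c r).coeff 0 = q := by
    rw [coeff_zero_h, ← hu, ← hv, hedef]
    ring
  have hq0 : 0 < q := by
    have : 0 < c * 4 ^ r := by positivity
    omega
  have hne : (h e c r).coeff 0 ≠ 0 := by rw [hcoef]; omega
  obtain ⟨z, hz, hbig⟩ := exists_big he hc hr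
  have hev : ∀ (p : ℤ[X]) (x : ℂ), (p.map (algebraMap ℤ ℂ)).eval x = aeval x p := fun p x => by
    rw [eval_map, aeval_def]
  obtain ⟨m0, hm0⟩ := exists_outside ((reflect (r + 1) (h e c r)).map (algebraMap ℤ ℂ))
    ((b e c r).map (algebraMap ℤ ℂ)) (r + 1) hz (by rw [hev, hev]; exact hbig)
  refine ⟨m0 + 2 * (r + 1) + 1, fun n hn => ?_⟩
  obtain ⟨m, rfl⟩ : ∃ m, n = m + (r + 1) := ⟨n - (r + 1), by omega⟩
  have hm1 : 1 ≤ m := by omega
  have hmap : X ^ m * (reflect (r + 1) (h e c r)).map (algebraMap ℤ ℂ) +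
      (b e c r).map (algebraMap ℤ ℂ) = (P e c r m).map (algebraMap ℤ ℂ) := by
    unfold P
    simp
  refine ⟨P e c r m, natDegree_P hm1 hne, by rw [leadingCoeff_P hm1 hne, hcoef], ?_, ?_⟩
  · obtain ⟨α, h1, h2⟩ := hm0 m (by omega) (by
      rw [hmap, natDegree_map_eq_of_injective (algebraMap ℤ ℂ).injective_int, natDegree_P hm1 hne])
    rw [hmap, hev] at h1
    exact ⟨α, h1, h2⟩
  · intro w hw
    have hc0 : (0 : ℝ) < c := by
      have : (2 : ℝ) ≤ c := by exact_mod_cast hc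
      linarith
    have hn0 : (0 : ℝ) < ((m + (r + 1) : ℕ) : ℝ) := by positivity
    have hτ : 0 ≤ 8 / ((c : ℝ) ^ r * ((m + (r + 1) : ℕ) : ℝ)) := by positivity
    by_contra hcon
    push Not at hcon
    have h1 := root_le he hc hr hw (by linarith)
    have h2 : (1 + 8 / ((c : ℝ) ^ r * ((m + (r + 1) : ℕ) : ℝ))) ^ m < ‖w‖ ^ m :=
      pow_lt_pow_left₀ hcon (by linarith) (by omega)
    have h3 := one_add_mul_le_pow
      (show (-2 : ℝ) ≤ 8 / ((c : ℝ) ^ r * ((m + (r + 1) : ℕ) : ℝ)) by linarith) m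
    have h4 : 4 / (c : ℝ) ^ r ≤ m * (8 / ((c : ℝ) ^ r * ((m + (r + 1) : ℕ) : ℝ))) := by
      rw [mul_div_assoc', div_le_div_iff₀ (by positivity) (by positivity)]
      have h5 : ((m + (r + 1) : ℕ) : ℝ) ≤ 2 * m := by
        have : m + (r + 1) ≤ 2 * m := by omega
        exact_mod_cast this
      have h6 : (0 : ℝ) < (c : ℝ) ^ r := by positivity
      nlinarith
    linarith

theorem large {q : ℤ} (hq : 4096 ≤ q) :
    ∃ n0 : ℕ, ∀ n ≥ n0, Exceptional q n (Real.exp (-(Real.log q) ^ 2 / 20) / n) := by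
  obtain ⟨Q, rfl⟩ : ∃ Q : ℕ, q = (Q : ℤ) := ⟨q.toNat, by omega⟩
  have hQ : 4096 ≤ Q := by exact_mod_cast hq
  set L := Nat.log 2 Q with hL
  have hL12 : 12 ≤ L := (Nat.le_log_iff_pow_le (by norm_num) (by omega)).2 (by omega)
  have hL1 : 2 ^ L ≤ Q := Nat.pow_log_le_self 2 (by omega)
  have hL2 : Q < 2 ^ (L + 1) := Nat.lt_pow_succ_log_self (by norm_num) Q
  obtain ⟨r, hr⟩ : ∃ r, r = L / 4 := ⟨_, rfl⟩
  obtain ⟨t, ht⟩ : ∃ t, t = L - 2 * r := ⟨_, rfl⟩
  have hr1 : 1 ≤ r := by omega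
  have ht1 : 1 ≤ t := by omega
  have hrt : t + 2 * r = L := by omega
  have h8 : L * (L - 3) ≤ 8 * (t * r) := by
    have h1 : L ≤ 2 * t := by omega
    have h2 : L - 3 ≤ 4 * r := by omega
    calc L * (L - 3) ≤ (2 * t) * (4 * r) := Nat.mul_le_mul h1 h2
      _ = 8 * (t * r) := by ring
  obtain ⟨n0, hn0⟩ := general hr1 (c := ((2 ^ t : ℕ) : ℤ)) (q := (Q : ℤ))
    (by exact_mod_cast (show 2 ≤ 2 ^ t from by
      calc 2 = 2 ^ 1 := rfl
        _ ≤ 2 ^ t := Nat.pow_le_pow_right (by norm_num) ht1))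
    (by
      have : 2 ^ t * 4 ^ r ≤ Q := by
        refine le_trans (le_of_eq ?_) hL1
        rw [← hrt, pow_add, pow_mul 2 2 r]
        norm_num
      exact_mod_cast this)
  refine ⟨n0 + 1, fun n hn => (hn0 n (by omega)).mono ?_⟩
  have hn' : (0 : ℝ) < n := by
    have : 0 < n := by omega
    exact_mod_cast this
  rw [← div_div]
  refine div_le_div_of_nonneg_right ?_ hn'.le
  have hlog2 : Real.log 2 < 0.6931471808 := Real.log_two_lt_d9
  have hlog2' : 0.6931471803 < Real.log 2 := Real.log_two_gt_d9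
  have hQR : (Real.log ((Q : ℤ) : ℝ)) ≤ (L + 1) * Real.log 2 := by
    have h1 : ((Q : ℤ) : ℝ) ≤ 2 ^ (L + 1) := by exact_mod_cast hL2.le
    have h0 : (0 : ℝ) < ((Q : ℤ) : ℝ) := by
      have : 0 < Q := by omega
      exact_mod_cast this
    have h2 := Real.log_le_log h0 h1
    rw [Real.log_pow] at h2
    push_cast at h2
    exact h2
  have hQ0 : 0 ≤ Real.log ((Q : ℤ) : ℝ) := by
    refine Real.log_nonneg ?_
    have : 1 ≤ Q := by omega
    exact_mod_cast this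
  have hLR : (12 : ℝ) ≤ L := by exact_mod_cast hL12
  have h8R : (L : ℝ) * (L - 3) ≤ 8 * (t * r) := by
    have h1 : ((L * (L - 3) : ℕ) : ℝ) ≤ ((8 * (t * r) : ℕ) : ℝ) := by exact_mod_cast h8
    rw [Nat.cast_mul, Nat.cast_sub (by omega)] at h1
    push_cast at h1
    exact h1
  have h9 : (8 : ℝ) / (((2 ^ t : ℕ) : ℤ) : ℝ) ^ r = Real.exp ((3 - t * r) * Real.log 2) := by
    rw [sub_mul, Real.exp_sub]
    have e1 : Real.exp (3 * Real.log 2) = 8 := by
      rw [show (3 : ℝ) * Real.log 2 = ((3 : ℕ) : ℝ) * Real.log 2 by norm_num, Real.exp_nat_mul,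
        Real.exp_log (by norm_num)]
      norm_num
    have e2 : Real.exp ((t : ℝ) * r * Real.log 2) = (((2 ^ t : ℕ) : ℤ) : ℝ) ^ r := by
      rw [show (t : ℝ) * r * Real.log 2 = ((t * r : ℕ) : ℝ) * Real.log 2 by push_cast; ring,
        Real.exp_nat_mul, Real.exp_log (by norm_num)]
      push_cast
      rw [pow_mul]
    rw [e1, e2]
  rw [h9]
  refine Real.exp_le_exp.2 ?_
  have h10 : (Real.log ((Q : ℤ) : ℝ)) ^ 2 ≤ ((L + 1) * Real.log 2) ^ 2 :=
    pow_le_pow_left₀ hQ0 hQR 2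
  have h11 : ((L + 1 : ℝ) * Real.log 2) ^ 2 ≤ ((L : ℝ) + 1) ^ 2 * 0.4805 := by
    rw [mul_pow]
    refine mul_le_mul_of_nonneg_left ?_ (by positivity)
    nlinarith
  have h12 : (0 : ℝ) ≤ t * r - 3 := by nlinarith
  have h13 : 0.693 * (t * r - 3) ≤ Real.log 2 * ((t : ℝ) * r - 3) :=
    mul_le_mul_of_nonneg_right (by linarith) h12
  nlinarith

/-- **Main theorem.**
(1) If `r ≥ 1`, `c ≥ 2` and `q ≥ c 4 ^ r`, then for all large `n` there is an integer polynomial of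
degree `n` and leading coefficient `q` with a root of modulus `> 1`, all of whose roots have modulus
at most `1 + 8 / (c ^ r n)`.
(2) For every `q ≥ 4096` the same holds for all large `n` with `1 + exp (-(log q) ^ 2 / 20) / n`.
(3) For all real `A` and `c > 0` the same holds for all `q ≥ q₀(A, c)` and `n ≥ n₀(q, A, c)` with
`1 + c / (q ^ A n)`. -/
theorem result :
    (∀ r : ℕ, 1 ≤ r → ∀ c q : ℤ, 2 ≤ c → c * 4 ^ r ≤ q →
      ∃ n0 : ℕ, ∀ n ≥ n0, Exceptional q n (8 / ((c : ℝ) ^ r * n))) ∧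
    (∀ q : ℤ, 4096 ≤ q →
      ∃ n0 : ℕ, ∀ n ≥ n0, Exceptional q n (Real.exp (-(Real.log q) ^ 2 / 20) / n)) ∧
    ∀ A c : ℝ, 0 < c → ∃ q0 : ℤ, ∀ q ≥ q0, ∃ n0 : ℕ, ∀ n ≥ n0,
      Exceptional q n (c / ((q : ℝ) ^ A * n)) := by
  refine ⟨fun r hr c q hc hq => general hr hc hq, fun q hq => large hq, fun A c hc => ?_⟩
  obtain ⟨N, hN⟩ := exists_nat_ge (Real.exp (20 * (|A| + 1) + |Real.log c|))
  refine ⟨max 4096 (N : ℤ), fun q hq => ?_⟩
  have hq1 : 4096 ≤ q := (le_max_left _ _).trans hq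
  have hq2 : (N : ℤ) ≤ q := (le_max_right _ _).trans hq
  obtain ⟨n0, hn0⟩ := large hq1
  refine ⟨n0, fun n hn => (hn0 n hn).mono ?_⟩
  rw [← div_div]
  refine div_le_div_of_nonneg_right ?_ (Nat.cast_nonneg n)
  have hq0 : (0 : ℝ) < q := by
    have : (4096 : ℝ) ≤ q := by exact_mod_cast hq1
    linarith
  have hx : 20 * (|A| + 1) + |Real.log c| ≤ Real.log q := by
    rw [← Real.log_exp (20 * (|A| + 1) + |Real.log c|)]
    refine Real.log_le_log (Real.exp_pos _) (hN.trans ?_)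
    exact_mod_cast hq2
  have e1 : c / (q : ℝ) ^ A = Real.exp (Real.log c - A * Real.log q) := by
    rw [Real.exp_sub, Real.exp_log hc, mul_comm A, ← Real.rpow_def_of_pos hq0]
  rw [e1]
  refine Real.exp_le_exp.2 ?_
  have h1 : A ≤ |A| := le_abs_self A
  have h2 : -|Real.log c| ≤ Real.log c := neg_abs_le _
  have h3 : 0 ≤ |A| := abs_nonneg A
  have h4 : 0 ≤ |Real.log c| := abs_nonneg _
  have hl : 0 ≤ Real.log q := by linarith
  have h5 : A * Real.log q ≤ |A| * Real.log q := mul_le_mul_of_nonneg_right h1 hl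
  have h6 : 20 * (|A| + 1) * Real.log q ≤ (Real.log q) ^ 2 := by
    rw [pow_two]
    refine mul_le_mul_of_nonneg_right ?_ hl
    linarith
  nlinarith

end Pool.Agent.Results.MP_daf011_nt.EveryLeadingCoefficient
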